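import Pool.Agent.Helper38.RS.Goals2

/-! # RS, packet STP: the algebraic step -/

set_option autoImplicit false

namespace Pool.Agent.Helper15.RS

open NumberField Polynomial Module IsDedekindDomain Pool.Agent.Helper51.SigLeo
open Pool.Agent.Helper38.RS

/-! ## The cyclic algebra -/

/-- The shift. -/
def sh (m : ℕ) : Module.End (ZMod 2) (ZMod m → ZMod 2) where
  toFun f := fun i => f (i - 1)
  map_add' _ _ := rfl
  map_smul' _ _ := rfl

theorem sh_pow (m : ℕ) (j : ℕ) : ∀ (f : ZMod m → ZMod 2) (i : ZMod m),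
    ((sh m) ^ j) f i = f (i - j) := by
  induction j with
  | zero => intro f i; simp
  | succ j ih =>
    intro f i
    rw [pow_succ, Module.End.mul_apply, ih]
    show f (i - j - 1) = f (i - ((j + 1 : ℕ) : ZMod m))
    congr 1
    push_cast
    ring

theorem aeval_sh (m : ℕ) (p : (ZMod 2)[X]) (f : ZMod m → ZMod 2) (i : ZMod m) :
    (aeval (sh m) p) f i = ∑ j ∈ p.support, p.coeff j * f (i - j) := by
  rw [aeval_def, eval₂_eq_sum, Polynomial.sum_def, LinearMap.sum_apply, Finset.sum_apply]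
  refine Finset.sum_congr rfl fun j _ => ?_
  rw [Module.End.mul_apply]
  show (p.coeff j • ((sh m ^ j) f)) i = _
  rw [Pi.smul_apply, sh_pow, smul_eq_mul]

theorem sh_pow_m (m : ℕ) : (sh m) ^ m = 1 := by
  refine LinearMap.ext fun f => funext fun i => ?_
  rw [sh_pow]
  simp

theorem zmod2_one {a : ZMod 2} (h : a ≠ 0) : a = 1 := by
  revert h; revert a; decide

/-- The generator. -/
def d0 (m : ℕ) : ZMod m → ZMod 2 := Pi.single 0 1

theorem cast_inj {m i j : ℕ} (hi : i < m) (hj : j < m) (h : (i : ZMod m) = (j : ZMod m)) :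
    i = j := by
  have h1 := (ZMod.natCast_eq_natCast_iff i j m).1 h
  exact Nat.ModEq.eq_of_lt_of_lt h1 hi hj

theorem ann {m : ℕ} (hm : 0 < m) (Z : (ZMod 2)[X]) (h : (aeval (sh m) Z) (d0 m) = 0) :
    (X ^ m - 1 : (ZMod 2)[X]) ∣ Z := by
  have hmon : (X ^ m - 1 : (ZMod 2)[X]).Monic := by
    have := monic_X_pow_sub_C (R := ZMod 2) 1 hm.ne'
    rwa [C_1] at this
  have hdeg : (X ^ m - 1 : (ZMod 2)[X]).degree = m := by
    have := degree_X_pow_sub_C (R := ZMod 2) hm 1
    rwa [C_1] at this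
  rw [← modByMonic_eq_zero_iff_dvd hmon]
  set r := Z %ₘ (X ^ m - 1) with hr
  have h1 : aeval (sh m) Z = aeval (sh m) r := by
    have e := modByMonic_add_div Z (X ^ m - 1 : (ZMod 2)[X])
    conv_lhs => rw [← e]
    rw [map_add, map_mul, map_sub, map_pow, aeval_X, map_one, sh_pow_m, sub_self, zero_mul,
      add_zero]
  rw [h1] at h
  have hlt : ∀ j ∈ r.support, j < m := by
    intro j hj
    have h2 := degree_modByMonic_lt Z hmon
    rw [hdeg, ← hr] at h2
    have h3 := le_degree_of_mem_supp j hj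
    exact_mod_cast lt_of_le_of_lt h3 h2
  ext i
  rw [coeff_zero]
  by_contra hne
  have hi : i ∈ r.support := mem_support_iff.2 hne
  have h4 := congrFun h (i : ZMod m)
  rw [aeval_sh, Finset.sum_eq_single i] at h4
  · simp [d0] at h4
    exact hne h4
  · intro j hj hji
    have h5 : ((i : ZMod m) - (j : ZMod m)) ≠ 0 := by
      intro h6
      exact hji (cast_inj (hlt j hj) (hlt i hi) (sub_eq_zero.1 h6).symm)
    rw [d0, Pi.single_eq_of_ne h5, mul_zero]
  · intro h5; exact absurd hi h5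

theorem sum_range_zmod {A : Type*} [AddCommMonoid A] (m : ℕ) [NeZero m] (F : ZMod m → A) :
    ∑ j ∈ Finset.range m, F (j : ZMod m) = ∑ j, F j := by
  refine Finset.sum_nbij' (fun j => (j : ZMod m)) ZMod.val ?_ ?_ ?_ ?_ ?_
  · intro j _; exact Finset.mem_univ _
  · intro j _; exact Finset.mem_range.2 (ZMod.val_lt j)
  · intro j hj; exact ZMod.val_cast_of_lt (Finset.mem_range.1 hj)
  · intro j _; exact ZMod.natCast_zmod_val j
  · intro j _; rfl

/-- The polynomial of a function. -/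
noncomputable def pl {m : ℕ} (n : ZMod m → ZMod 2) : (ZMod 2)[X] :=
  ∑ j ∈ Finset.range m, C (n j) * X ^ j

theorem aeval_pl {m : ℕ} [NeZero m] (n f : ZMod m → ZMod 2) (i : ZMod m) :
    (aeval (sh m) (pl n)) f i = ∑ j, n j * f (i - j) := by
  rw [pl, map_sum, LinearMap.sum_apply, Finset.sum_apply, ← sum_range_zmod]
  refine Finset.sum_congr rfl fun j _ => ?_
  rw [map_mul, aeval_C, map_pow, aeval_X, Module.End.mul_apply]
  show (n j • ((sh m ^ j) f)) i = _
  rw [Pi.smul_apply, sh_pow, smul_eq_mul]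

theorem aeval_pl_d0 {m : ℕ} [NeZero m] (n : ZMod m → ZMod 2) :
    (aeval (sh m) (pl n)) (d0 m) = n := by
  funext i
  rw [aeval_pl, Finset.sum_eq_single i]
  · simp [d0]
  · intro j _ hj
    rw [d0, Pi.single_eq_of_ne (sub_ne_zero.2 hj.symm), mul_zero]
  · intro h; exact absurd (Finset.mem_univ i) h

theorem alg {m : ℕ} (hm : Odd m) (P : (ZMod 2)[X]) (hP : Irreducible P) (hd : P ∣ X ^ m - 1)
    (n w : ZMod m → ZMod 2) (ha : (aeval (sh m) P) n = 0) (hb : (aeval (sh m) P) w = 0)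
    (hc : ∀ k, letI : NeZero m := ⟨hm.pos.ne'⟩; ∑ j, n j * w (k - j) = 0) (hw : w ≠ 0) :
    n = 0 := by
  have : NeZero m := ⟨hm.pos.ne'⟩
  obtain ⟨Q, hQ⟩ := hd
  have hsep : (X ^ m - 1 : (ZMod 2)[X]).Separable := by
    rw [X_pow_sub_one_separable_iff]
    intro h0
    have h1 : (2 : ℕ) ∣ m := (ZMod.natCast_eq_zero_iff m 2).1 h0
    exact (Nat.not_even_iff_odd.2 hm) (even_iff_two_dvd.2 h1)
  have hcop : IsCoprime P Q := by
    rw [hQ] at hsep
    exact hsep.isCoprime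
  have hN : ∀ f : ZMod m → ZMod 2, (aeval (sh m) P) f = 0 → Q ∣ pl f := by
    intro f hf
    have h1 : (aeval (sh m) (P * pl f)) (d0 m) = 0 := by
      rw [map_mul, Module.End.mul_apply, aeval_pl_d0, hf]
    have h2 := ann hm.pos _ h1
    rw [hQ] at h2
    exact (mul_dvd_mul_iff_left hP.ne_zero).1 h2
  have hNW : (X ^ m - 1 : (ZMod 2)[X]) ∣ pl n * pl w := by
    refine ann hm.pos _ ?_
    rw [map_mul, Module.End.mul_apply, aeval_pl_d0]
    funext k
    rw [aeval_pl]
    exact hc k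
  have hz : ∀ f : ZMod m → ZMod 2, Q ∣ pl f → P ∣ pl f → f = 0 := by
    intro f h1 h2
    have h3 : P * Q ∣ pl f := hcop.mul_dvd h2 h1
    rw [← hQ] at h3
    obtain ⟨c, hc⟩ := h3
    rw [← aeval_pl_d0 f, hc, map_mul, map_sub, map_pow, aeval_X, map_one, sh_pow_m, sub_self,
      zero_mul]
    rfl
  have hPd : P ∣ pl n * pl w := (Dvd.intro Q hQ.symm).trans hNW
  rcases hP.prime.dvd_or_dvd hPd with h | h
  · exact hz n (hN n ha) h
  · exact absurd (hz w (hN w hb) h) hw

/-! ## Signs -/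

/-- The character. -/
noncomputable def sg (a : ZMod 2) : ℝ := if a = 0 then 1 else -1

theorem sg_add (a b : ZMod 2) : sg (a + b) = sg a * sg b := by
  rcases eq_or_ne a 0 with ha | ha
  · subst ha; simp [sg]
  · rcases eq_or_ne b 0 with hb | hb
    · subst hb; simp [sg]
    · rw [zmod2_one ha, zmod2_one hb]
      have : (1 + 1 : ZMod 2) = 0 := by decide
      rw [this]
      simp [sg]

theorem sg_zero : sg 0 = 1 := by simp [sg]

theorem sg_eq_one {a : ZMod 2} (h : sg a = 1) : a = 0 := by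
  by_contra h0
  rw [sg, if_neg h0] at h
  norm_num at h

theorem sg_sum {ι : Type*} (s : Finset ι) (f : ι → ZMod 2) :
    ∏ j ∈ s, sg (f j) = sg (∑ j ∈ s, f j) := by
  classical
  induction s using Finset.induction_on with
  | empty => simp [sg_zero]
  | insert a s ha ih => rw [Finset.prod_insert ha, Finset.sum_insert ha, sg_add, ih]

theorem sg_pow (a : ZMod 2) (k : ℕ) : sg a ^ k = sg ((k : ZMod 2) * a) := by
  induction k with
  | zero => simp [sg_zero]
  | succ k ih => rw [pow_succ, ih, ← sg_add]; congr 1; push_cast; ring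

theorem natAbs_cast (z : ℤ) : ((z.natAbs : ℕ) : ZMod 2) = (z : ZMod 2) := by
  have h2 : ∀ a : ZMod 2, -a = a := by decide
  rcases Int.natAbs_eq z with h | h
  · have e : (z : ZMod 2) = (((z.natAbs : ℕ) : ℤ) : ZMod 2) := congrArg (fun t : ℤ => (t : ZMod 2)) h
    rw [e, Int.cast_natCast]
  · have e : (z : ZMod 2) = ((-((z.natAbs : ℕ) : ℤ) : ℤ) : ZMod 2) :=
      congrArg (fun t : ℤ => (t : ZMod 2)) h
    rw [e, Int.cast_neg, Int.cast_natCast, h2]

/-! ## Valuations -/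

section val

variable {M : Type} [Field M] [NumberField M]

theorem ordv_mul (v : HeightOneSpectrum (𝓞 M)) {x y : M} (hx : x ≠ 0) (hy : y ≠ 0) :
    ordv v (x * y) = ordv v x + ordv v y := by
  have h1 : v.valuation M x ≠ 0 := (Valuation.ne_zero_iff _).2 hx
  have h2 : v.valuation M y ≠ 0 := (Valuation.ne_zero_iff _).2 hy
  rw [ordv, ordv, ordv, map_mul, WithZero.log_mul h1 h2]
  ring

theorem ordv_prod {ι : Type*} (v : HeightOneSpectrum (𝓞 M)) (s : Finset ι) (f : ι → M)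
    (hf : ∀ i ∈ s, f i ≠ 0) : ordv v (∏ i ∈ s, f i) = ∑ i ∈ s, ordv v (f i) := by
  classical
  induction s using Finset.induction_on with
  | empty => simp [ordv]
  | insert a s ha ih =>
    rw [Finset.prod_insert ha, Finset.sum_insert ha, ordv_mul v (hf a (Finset.mem_insert_self _ _))
      (Finset.prod_ne_zero_iff.2 fun i hi => hf i (Finset.mem_insert_of_mem hi)),
      ih fun i hi => hf i (Finset.mem_insert_of_mem hi)]

end val

/-- STP. -/
theorem s_stp : S_STP := by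
  intro K M _ _ _ _ m δ P hm hδ hP hPd 𝔮 ψ hψ hψ1 x hSq hc i₀
  have : NeZero m := ⟨hm.pos.ne'⟩
  classical
  have hmod : ∀ a : ℕ, δ ^ a = δ ^ (a % m) := fun a => pow_eq_pow_mod a hδ
  -- the functions
  set ν : ZMod m → ZMod 2 := fun i => ((ordv 𝔮 ((δ ^ i.val : M ≃ₐ[K] M) (x : M)) : ℤ) : ZMod 2)
    with hν
  set om : ZMod m → ZMod 2 := fun i => if ψ (cj δ i.val 𝔮.asIdeal) = 1 then 0 else 1 with hom
  have hνn : ∀ a : ℕ, ν (a : ZMod m) =
      ((ordv 𝔮 ((δ ^ a : M ≃ₐ[K] M) (x : M)) : ℤ) : ZMod 2) := by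
    intro a
    simp only [hν, ZMod.val_natCast]
    rw [← hmod]
  have hcj : ∀ a : ℕ, cj δ a 𝔮.asIdeal = cj δ (a % m) 𝔮.asIdeal := by
    intro a
    simp only [cj]
    rw [hmod a]
  have homn : ∀ a : ℕ, ψ (cj δ a 𝔮.asIdeal) = sg (om (a : ZMod m)) := by
    intro a
    simp only [hom, ZMod.val_natCast]
    rw [← hcj a]
    rcases (hψ a).1 with h | h
    · rw [if_pos h, h, sg_zero]
    · rw [h]
      norm_num [sg]
  have hg0 : ∀ (g : M ≃ₐ[K] M) (z : Mˣ), g (z : M) ≠ 0 := fun g z h =>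
    z.ne_zero (g.injective (by rw [h, map_zero]))
  have hx0 : ∀ g : M ≃ₐ[K] M, g (x : M) ≠ 0 := fun g => hg0 g x
  -- (a)
  have ha0 : ∀ l : ℕ, ∑ j ∈ P.support, ν ((l + j : ℕ) : ZMod m) = 0 := by
    intro l
    obtain ⟨y, hy⟩ := hSq
    have h1 : (δ ^ l : M ≃ₐ[K] M) ((pol P δ x : Mˣ) : M) =
        ∏ j ∈ P.support, (δ ^ (l + j) : M ≃ₐ[K] M) (x : M) := by
      have h2 : ((pol P δ x : Mˣ) : M) = ∏ j ∈ P.support, (δ ^ j : M ≃ₐ[K] M) (x : M) := by
        rw [pol, MonoidHom.finsetProd_apply, Units.coe_prod]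
        rfl
      rw [h2, map_prod]
      refine Finset.prod_congr rfl fun j _ => ?_
      rw [pow_add]
      rfl
    have h3 : ordv 𝔮 ((δ ^ l : M ≃ₐ[K] M) ((pol P δ x : Mˣ) : M)) =
        ∑ j ∈ P.support, ordv 𝔮 ((δ ^ (l + j) : M ≃ₐ[K] M) (x : M)) := by
      rw [h1, ordv_prod 𝔮 _ _ fun j _ => hx0 _]
    have h4 : ordv 𝔮 ((δ ^ l : M ≃ₐ[K] M) ((pol P δ x : Mˣ) : M)) =
        2 * ordv 𝔮 ((δ ^ l : M ≃ₐ[K] M) (y : M)) := by
      have hy0 : (δ ^ l : M ≃ₐ[K] M) (y : M) ≠ 0 := hg0 _ y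
      rw [hy, Units.val_pow_eq_pow_val, map_pow, pow_two, ordv_mul 𝔮 hy0 hy0]
      ring
    have h5 := congrArg (fun z : ℤ => (z : ZMod 2)) (h3.symm.trans h4)
    simp only [Int.cast_sum, Int.cast_mul] at h5
    rw [Finset.sum_congr rfl fun j _ => hνn (l + j), h5]
    have : ((2 : ℤ) : ZMod 2) = 0 := by decide
    rw [this, zero_mul]
  -- (b)
  have hb0 : ∀ l : ℕ, ∑ j ∈ P.support, om ((l + j : ℕ) : ZMod m) = 0 := by
    intro l
    have h1 := (hψ l).2
    rw [Finset.prod_congr rfl fun j _ => homn (l + j), sg_sum] at h1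
    exact sg_eq_one h1
  have hcoeff : ∀ f : ZMod m → ZMod 2, (∀ l : ℕ, ∑ j ∈ P.support, f ((l + j : ℕ) : ZMod m) = 0) →
      (aeval (sh m) P) (fun i => f (-i)) = 0 := by
    intro f hf
    funext i
    rw [aeval_sh]
    have h1 := hf ((-i).val)
    rw [Pi.zero_apply, ← h1]
    refine Finset.sum_congr rfl fun j hj => ?_
    rw [zmod2_one (mem_support_iff.1 hj), one_mul]
    congr 1
    push_cast
    rw [ZMod.natCast_zmod_val]
    ring
  -- (c)
  have hc0 : ∀ k : ZMod m, ∑ j : ZMod m, om j * ν (k - j) = 0 := by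
    intro k
    have h1 := hc k.val
    have h2 : ∀ j ∈ Finset.range m, ψ (cj δ j 𝔮.asIdeal) ^
        (ordv 𝔮 (((δ ^ j)⁻¹ : M ≃ₐ[K] M) ((δ ^ k.val : M ≃ₐ[K] M) (x : M)))).natAbs =
        sg (om (j : ZMod m) * ν (k - (j : ZMod m))) := by
      intro j hj
      have hj' : j < m := Finset.mem_range.1 hj
      have e1 : ((δ ^ j)⁻¹ : M ≃ₐ[K] M) ((δ ^ k.val : M ≃ₐ[K] M) (x : M)) =
          (δ ^ ((m - j) + k.val) : M ≃ₐ[K] M) (x : M) := by
        have e2 : (δ ^ j)⁻¹ = δ ^ (m - j) := by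
          rw [inv_eq_iff_mul_eq_one, ← pow_add, Nat.add_sub_cancel' hj'.le, hδ]
        rw [e2, pow_add]
        rfl
      rw [homn j, sg_pow, natAbs_cast, e1, ← hνn, mul_comm]
      congr 2
      congr 1
      push_cast
      rw [Nat.cast_sub hj'.le, ZMod.natCast_self, ZMod.natCast_zmod_val]
      ring
    rw [Finset.prod_congr rfl h2, sg_sum] at h1
    rw [← sum_range_zmod]
    exact sg_eq_one h1
  have hfin := alg hm P hP hPd (fun i => ν (-i)) (fun i => om (-i)) (hcoeff ν ha0) (hcoeff om hb0)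
    (by
      intro k
      have h1 := hc0 (-k)
      rw [← h1]
      refine Fintype.sum_equiv (Equiv.subRight k) _ _ fun j => ?_
      simp only [Equiv.subRight_apply]
      rw [mul_comm]
      congr 2
      · ring
      · ring)
    (by
      intro h0
      have h1 := congrFun h0 0
      simp only [neg_zero, Pi.zero_apply] at h1
      have h2 := homn 0
      have h3 : cj δ 0 𝔮.asIdeal = 𝔮.asIdeal := by
        rw [cj]
        have : (RingOfIntegers.mapRingHom ((δ ^ 0 : M ≃ₐ[K] M) : M →+* M)) = RingHom.id (𝓞 M) := by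
          ext z
          rfl
        rw [this, Ideal.map_id]
      rw [h3, hψ1, Nat.cast_zero, h1, sg_zero] at h2
      norm_num at h2)
  have h1 := congrFun hfin (-(i₀ : ZMod m))
  simp only [neg_neg, Pi.zero_apply] at h1
  rw [hνn] at h1
  exact (ZMod.intCast_zmod_eq_zero_iff_dvd _ 2).1 h1 |> even_iff_two_dvd.2

end Pool.Agent.Helper15.RS
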